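import Mathlib

/-! The upper half of the Recht-Re inequality fails for `m = n = 6`, `d = 6`. -/

open Matrix Finset

namespace Pool.Agent.Results.MP_6eb00f_an.Counter

/-- `S_m(A_1, ..., A_n)`: the sum of `A_(j 1) * ... * A_(j m)` over all ordered `m`-tuples of
pairwise distinct indices -/
noncomputable def S {n d : ℕ} (m : ℕ) (A : Fin n → Matrix (Fin d) (Fin d) ℝ) :
    Matrix (Fin d) (Fin d) ℝ :=
  ∑ j ∈ univ.filter (fun j : Fin m → Fin n => Function.Injective j),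
    (List.ofFn fun k => A (j k)).prod

noncomputable def R {n d : ℕ} (A : Fin n → Matrix (Fin d) (Fin d) ℝ) (m : ℕ) (s : Finset (Fin n)) :
    Matrix (Fin d) (Fin d) ℝ :=
  ∑ j : Fin m → Fin n, if Function.Injective j ∧ ∀ k, j k ∈ s then
    (List.ofFn fun k => A (j k)).prod else 0

lemma R_succ {n d : ℕ} (A : Fin n → Matrix (Fin d) (Fin d) ℝ) (m : ℕ) (s : Finset (Fin n)) :
    R A (m + 1) s = ∑ i ∈ s, A i * R A m (s.erase i) := by
  rw [R, ← (Fin.consEquiv fun _ : Fin (m + 1) => Fin n).sum_comp, Fintype.sum_prod_type,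
    ← sum_subset (subset_univ s) fun i _ hi => sum_eq_zero fun j _ => if_neg fun h => hi (h.2 0)]
  refine sum_congr rfl fun i hi => ?_
  rw [R, mul_sum]
  refine sum_congr rfl fun j _ => ?_
  have : (Function.Injective (Fin.consEquiv (fun _ : Fin (m + 1) => Fin n) (i, j)) ∧
      ∀ k, Fin.consEquiv (fun _ : Fin (m + 1) => Fin n) (i, j) k ∈ s) ↔
      Function.Injective j ∧ ∀ k, j k ∈ s.erase i := by
    simp only [Fin.consEquiv_apply, Fin.forall_fin_succ, Fin.cons_zero, Fin.cons_succ, mem_erase]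
    change Function.Injective (Fin.cons i j : Fin (m + 1) → Fin n) ∧ _ ↔ _
    rw [Fin.cons_injective_iff]
    simp only [Set.mem_range, not_exists, hi, true_and, forall_and]
    tauto
  simp only [this]
  split_ifs
  · simp [List.ofFn_succ]
  · simp

def B : Fin 6 → Matrix (Fin 6) (Fin 3) ℤ :=
  ![!![1, 2, 0; 2, -3, 2; 27, -1, 0; -25, 1, 1; -1, 0, -1; 9, -1, 1],
    !![31, 0, 0; -4, 28, -1; 0, 5, 13; 6, -3, 25; 6, -1, 0; -6, 6, -4],
    !![-8, -8, -2; -9, 11, -1; 6, -17, 1; 4, 2, 1; 4, 22, -1; 36, 0, 3],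
    !![-1, 8, 20; 28, 0, 0; 7, 18, -12; 0, 6, -16; 2, 25, 0; 7, 1, 0],
    !![16, -10, 0; -3, 9, 2; -15, -15, -1; 11, 2, 1; -6, 22, 0; 30, 1, 1],
    !![5, 2, 22; -15, 3, 17; 6, 13, 1; -9, 25, 0; 27, 0, 0; 1, -4, 1]]

def G : Fin 6 → Matrix (Fin 6) (Fin 6) ℤ :=
  ![!![5, -4, 25, -23, -1, 7; -4, 17, 57, -51, -4, 23; 25, 57, 730, -676, -27, 244; -23, -51, -676, 627, 24, -225; -1, -4, -27, 24, 2, -10; 7, 23, 244, -225, -10, 83],
    !![961, -124, 0, 186, 186, -186; -124, 801, 127, -133, -52, 196; 0, 127, 194, 310, -5, -22; 186, -133, 310, 670, 39, -154; 186, -52, -5, 39, 37, -42; -186, 196, -22, -154, -42, 88],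
    !![132, -14, 86, -50, -206, -294; -14, 203, -242, -15, 207, -327; 86, -242, 326, -9, -351, 219; -50, -15, -9, 21, 59, 147; -206, 207, -351, 59, 501, 141; -294, -327, 219, 147, 141, 1305],
    !![465, -28, -103, -272, 198, 1; -28, 784, 196, 0, 56, 196; -103, 196, 517, 300, 464, 67; -272, 0, 300, 292, 150, 6; 198, 56, 464, 150, 629, 39; 1, 196, 67, 6, 39, 50],
    !![356, -138, -90, 156, -316, 470; -138, 94, -92, -13, 216, -79; -90, -92, 451, -196, -240, -466; 156, -13, -196, 126, -22, 333; -316, 216, -240, -22, 520, -158; 470, -79, -466, 333, -158, 902],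
    !![513, 305, 78, 5, 135, 19; 305, 523, -34, 210, -405, -10; 78, -34, 206, 271, 162, -45; 5, 210, 271, 706, -243, -109; 135, -405, 162, -243, 729, 27; 19, -10, -45, -109, 27, 18]]

lemma G_eq : ∀ i, G i = B i * (B i)ᵀ := by decide +kernel

noncomputable def A (i : Fin 6) : Matrix (Fin 6) (Fin 6) ℝ :=
  (1 / 412 : ℝ) • (G i).map (Int.castRingHom ℝ)

abbrev V := ℤ × ℤ × ℤ × ℤ × ℤ × ℤ

def dot (r : Fin 6 → ℤ) (v : V) : ℤ :=
  r 0 * v.1 + r 1 * v.2.1 + r 2 * v.2.2.1 + r 3 * v.2.2.2.1 + r 4 * v.2.2.2.2.1 + r 5 * v.2.2.2.2.2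

def app (i : Fin 6) (v : V) : V :=
  (dot (G i 0) v, dot (G i 1) v, dot (G i 2) v, dot (G i 3) v, dot (G i 4) v, dot (G i 5) v)

def T : ℕ → Finset (Fin 6) → V
  | 0, _ => (3, 0, -4, 4, -3, -2)
  | k + 1, s => ∑ i ∈ s, app i (T k (s.erase i))

def vec : V →+ (Fin 6 → ℝ) where
  toFun v := ![v.1, v.2.1, v.2.2.1, v.2.2.2.1, v.2.2.2.2.1, v.2.2.2.2.2]
  map_zero' := by ext i; fin_cases i <;> simp
  map_add' v w := by ext i; fin_cases i <;> simp

lemma vec_app (i : Fin 6) (v : V) : vec (app i v) = (G i).map (Int.castRingHom ℝ) *ᵥ vec v := by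
  ext a
  fin_cases a <;> simp [vec, app, dot, mulVec, dotProduct, Fin.sum_univ_six]

lemma R_T (k : ℕ) : ∀ s, R A k s *ᵥ vec (T 0 ∅) = (1 / 412 : ℝ) ^ k • vec (T k s) := by
  induction k with
  | zero => intro s; simp [R, T, Function.injective_of_subsingleton]
  | succ k ih =>
    intro s
    have hT : T (k + 1) s = ∑ i ∈ s, app i (T k (s.erase i)) := rfl
    rw [R_succ, sum_mulVec, hT, map_sum, smul_sum]
    refine sum_congr rfl fun i _ => ?_
    rw [← mulVec_mulVec, ih, vec_app, A, smul_mulVec, mulVec_smul, smul_smul, pow_succ']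

lemma T_val : T 6 univ = (11267474188556255874, -939726518352807521, -15235867555714332899, 13947772551700803518, -10050929574405340994, -6946505998189559366) := by
  decide +kernel

lemma G_sum : ∑ i, G i = !![2432, -3, -4, 2, -4, 17; -3, 2422, 12, -2, 18, -1; -4, 12, 2424, 0, 3, -3; 2, -2, 0, 2442, 7, -2; -4, 18, 3, 7, 2418, -3; 17, -1, -3, -2, -3, 2446] := by decide +kernel

theorem result : ∃ A : Fin 6 → Matrix (Fin 6) (Fin 6) ℝ, (∀ i, (A i).PosSemidef) ∧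
    ((6 : ℝ) • (1 : Matrix (Fin 6) (Fin 6) ℝ) - ∑ i, A i).PosSemidef ∧
    (∃ x : Fin 6 → ℝ, (Nat.factorial 6 / Nat.factorial (6 - 6) : ℝ) * (x ⬝ᵥ x) <
      x ⬝ᵥ (S 6 A *ᵥ x)) ∧
    ¬ ((Nat.factorial 6 / Nat.factorial (6 - 6) : ℝ) • (1 : Matrix (Fin 6) (Fin 6) ℝ) -
      S 6 A).PosSemidef := by
  have key : ∃ x : Fin 6 → ℝ, (Nat.factorial 6 / Nat.factorial (6 - 6) : ℝ) * (x ⬝ᵥ x) <
      x ⬝ᵥ (S 6 A *ᵥ x) := by
    have h1 : S 6 A = R A 6 univ := by simp [S, R, sum_filter]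
    refine ⟨vec (T 0 ∅), ?_⟩
    rw [h1, R_T, T_val]
    simp [vec, T, dotProduct, Fin.sum_univ_six, Nat.factorial]
    norm_num
  refine ⟨A, fun i => ?_, ?_, key, fun h => ?_⟩
  · rw [A, G_eq, Matrix.map_mul]
    refine PosSemidef.smul ?_ (by norm_num)
    exact posSemidef_self_mul_conjTranspose ((B i).map (Int.castRingHom ℝ))
  · have h1 : ∑ i, A i = (1 / 412 : ℝ) • (∑ i, G i).map (Int.castRingHom ℝ) := by
      ext a b
      simp [A, Matrix.sum_apply, mul_sum]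
    rw [h1, G_sum]
    refine PosSemidef.of_dotProduct_mulVec_nonneg ?_ fun x => ?_
    · ext a b
      fin_cases a <;> fin_cases b <;> simp
    · have h2 : 0 ≤ 10 * x 0 ^ 2 + 3 * (x 0 + x 1) ^ 2 + 4 * (x 0 + x 2) ^ 2 + 2 * (x 0 - x 3) ^ 2 + 4 * (x 0 + x 4) ^ 2 + 17 * (x 0 - x 5) ^ 2 +
        14 * x 1 ^ 2 + 12 * (x 1 - x 2) ^ 2 + 2 * (x 1 + x 3) ^ 2 + 18 * (x 1 - x 4) ^ 2 + 1 * (x 1 + x 5) ^ 2 +
        26 * x 2 ^ 2 + 3 * (x 2 - x 4) ^ 2 + 3 * (x 2 + x 5) ^ 2 + 17 * x 3 ^ 2 + 7 * (x 3 - x 4) ^ 2 +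
        2 * (x 3 + x 5) ^ 2 + 19 * x 4 ^ 2 + 3 * (x 4 + x 5) ^ 2 + 0 * x 5 ^ 2 := by positivity
      simp [mulVec, dotProduct, Fin.sum_univ_six, Matrix.one_apply]
      nlinarith
  · obtain ⟨x, hx⟩ := key
    have h1 := h.dotProduct_mulVec_nonneg x
    rw [sub_mulVec, smul_mulVec, one_mulVec, dotProduct_sub, dotProduct_smul] at h1
    simp only [star_trivial, smul_eq_mul] at h1
    linarith

end Pool.Agent.Results.MP_6eb00f_an.Counter
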